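import Pool.Agent.Lib_helper46.OS.MN

/-!
# One sign: the final theorem, with conditions on single elements of the Galois group
-/

set_option autoImplicit false

namespace Pool.Agent.OS2

open NumberField Topology Polynomial
open Pool.Agent.TT (Qbar)
open Pool.Agent.TF (Stratum strataCard)
open Pool.Agent.OS

theorem fn_cast {k : Type} [Field k] [CharZero k] (u : ℤˣ) :
    ((u : ℤ) : k) = algebraMap ℚ k ((u : ℤ) : ℚ) := by
  rw [map_intCast]

/-- A prime number different from two given numbers. -/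
theorem fn_avoid (a b : ℕ) : ∃ p : ℕ, p.Prime ∧ p ≠ a ∧ p ≠ b := by
  by_cases h1 : 2 = a ∨ 2 = b
  · by_cases h2 : 3 = a ∨ 3 = b
    · refine ⟨5, by norm_num, ?_, ?_⟩ <;> omega
    · push Not at h2
      exact ⟨3, by norm_num, h2.1, h2.2⟩
  · push Not at h1
    exact ⟨2, by norm_num, h1.1, h1.2⟩

section

variable {K : Type} [Field K] [NumberField K] [Algebra K Qbar] {s j m : ℕ}
  {S : Fin s → Stratum K} {B B₀ : Finset (Ideal (𝓞 K))}

/-- **A simple eigenvalue `1` in every open normal subgroup.** -/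
theorem fn_simple (V : Realizations S j B B₀ m) (p : ℕ) [Fact p.Prime] (g : Qbar ≃ₐ[K] Qbar)
    (hu : unityRoots (V.ρ p g).charpoly = 1)
    (ℓ : ℕ) [Fact ℓ.Prime] (N : Subgroup (Qbar ≃ₐ[K] Qbar)) [N.Normal]
    (hN : IsOpen (N : Set (Qbar ≃ₐ[K] Qbar))) :
    ∃ h ∈ N, (V.ρ ℓ h).charpoly.derivative.eval 1 ≠ 0 := by
  classical
  have hgal : IsGalois K Qbar := ar_galois
  have hfi : N.FiniteIndex :=
    haveI := N.quotient_finite_of_isOpen hN
    Subgroup.finiteIndex_of_finite_quotient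
  have hcount : ((V.ρ p g).charpoly.roots.filter fun a => ∃ n : ℕ, 0 < n ∧ a ^ n = 1).card = 1 := by
    rw [← hu, unityRoots]
  rw [Multiset.card_eq_one] at hcount
  obtain ⟨a, ha⟩ := hcount
  have haf : a ∈ (V.ρ p g).charpoly.roots.filter fun a => ∃ n : ℕ, 0 < n ∧ a ^ n = 1 := by
    rw [ha]
    exact Multiset.mem_singleton_self a
  obtain ⟨haroot, n, hn, han⟩ := Multiset.mem_filter.mp haf
  set N₀ := N.index * n with hN₀
  have hN₀pos : 0 < N₀ := Nat.mul_pos (Nat.pos_of_ne_zero hfi.index_ne_zero) hn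
  have haN₀ : a ^ N₀ = 1 := by rw [hN₀, mul_comm, pow_mul, han, one_pow]
  have hmem : g ^ N₀ ∈ N := by
    rw [hN₀, pow_mul]
    exact N.pow_mem (N.pow_index_mem g) n
  have hfil : ((V.ρ p g).charpoly.roots.filter fun x => x ^ N₀ = 1) = {a} := by
    rw [← ha]
    apply Multiset.filter_congr
    intro x hx
    constructor
    · intro h
      exact ⟨N₀, hN₀pos, h⟩
    · intro h
      have h1 : x ∈ (V.ρ p g).charpoly.roots.filter fun a => ∃ n : ℕ, 0 < n ∧ a ^ n = 1 :=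
        Multiset.mem_filter.mpr ⟨hx, h⟩
      rw [ha, Multiset.mem_singleton] at h1
      rw [h1, haN₀]
  have hmult : (V.ρ p (g ^ N₀)).charpoly.rootMultiplicity 1 = 1 := by
    have h1 : V.ρ p (g ^ N₀) = V.ρ p g ^ N₀ := map_pow (V.ρ p) _ _
    rw [← Polynomial.count_roots, h1, nw_pow, Multiset.count_map]
    have h2 : (Multiset.filter (fun x => 1 = x ^ N₀) (V.ρ p g).charpoly.roots) = {a} := by
      rw [← hfil]
      apply Multiset.filter_congr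
      intro x _
      exact eq_comm
    rw [h2, Multiset.card_singleton]
  have hder : (V.ρ p (g ^ N₀)).charpoly.derivative.eval 1 ≠ 0 := by
    intro h
    have hne := (Matrix.charpoly_monic (V.ρ p (g ^ N₀))).ne_zero
    have h1 := (Polynomial.one_lt_rootMultiplicity_iff_isRoot (t := 1) hne).mpr
      ⟨(Polynomial.rootMultiplicity_pos hne).mp (by rw [hmult]; exact one_pos), h⟩
    rw [hmult] at h1
    exact lt_irrefl _ h1
  have hU : {y : Qbar ≃ₐ[K] Qbar | y ∈ N ∧ (V.ρ p y).charpoly.derivative.eval 1 ≠ 0} ∈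
      𝓝 (g ^ N₀) := by
    apply Filter.inter_mem
    · exact hN.mem_nhds hmem
    · exact (isOpen_ne.preimage (mn_cont_der.comp ((V.real p).continuous))).mem_nhds hder
  obtain ⟨y, ⟨hyN, hy⟩, f, hf1, hf2⟩ := mn_dense V ℓ p _ _ hU
  refine ⟨y, hyN, ?_⟩
  intro h
  apply hy
  rw [hf1, Polynomial.derivative_map, Polynomial.eval_map, ← map_one (algebraMap ℚ ℂ_[ℓ]),
    Polynomial.eval₂_at_apply, map_eq_zero] at h
  rw [hf2, Polynomial.derivative_map, Polynomial.eval_map, ← map_one (algebraMap ℚ ℂ_[p]),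
    Polynomial.eval₂_at_apply, h, map_zero]

/-- The values of the character are eigenvalues at all primes. -/
theorem fn_eig (V : Realizations S j B B₀ m) (ℓ : ℕ) [Fact ℓ.Prime]
    (χ : (Qbar ≃ₐ[K] Qbar) →* ℤˣ) (hχ : IsOpen (χ.ker : Set (Qbar ≃ₐ[K] Qbar)))
    (h : ∀ g, (V.ρ ℓ g).charpoly.eval ((χ g : ℤ) : ℂ_[ℓ]) = 0) (p : ℕ) [Fact p.Prime]
    (g : Qbar ≃ₐ[K] Qbar) : (V.ρ p g).charpoly.eval ((χ g : ℤ) : ℂ_[p]) = 0 := by
  by_contra hcon
  have hker : IsOpen {y : Qbar ≃ₐ[K] Qbar | g⁻¹ * y ∈ χ.ker} :=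
    hχ.preimage (continuous_const_mul g⁻¹)
  have hU : {y : Qbar ≃ₐ[K] Qbar | g⁻¹ * y ∈ χ.ker ∧
      (V.ρ p y).charpoly.eval ((χ g : ℤ) : ℂ_[p]) ≠ 0} ∈ 𝓝 g := by
    apply Filter.inter_mem
    · apply hker.mem_nhds
      show g⁻¹ * g ∈ χ.ker
      rw [inv_mul_cancel]
      exact χ.ker.one_mem
    · exact (isOpen_ne.preimage ((mn_cont_eval _).comp ((V.real p).continuous))).mem_nhds hcon
  obtain ⟨y, ⟨hy1, hy2⟩, f, hf1, hf2⟩ := mn_dense V ℓ p _ _ hU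
  have hχy : χ y = χ g := by
    rw [MonoidHom.mem_ker, map_mul, map_inv] at hy1
    exact (inv_mul_eq_one.mp hy1).symm
  apply hy2
  have h1 := h y
  rw [hf1, hχy, fn_cast, Polynomial.eval_map, Polynomial.eval₂_at_apply, map_eq_zero] at h1
  rw [hf2, fn_cast, Polynomial.eval_map, Polynomial.eval₂_at_apply, h1, map_zero]

/-- The determinant. -/
theorem fn_det (V : Realizations S j B B₀ m) (hm : Odd m) :
    ∃ D : (Qbar ≃ₐ[K] Qbar) →* ℤˣ, IsOpen (D.ker : Set (Qbar ≃ₐ[K] Qbar)) ∧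
      ∀ (ℓ : ℕ) [Fact ℓ.Prime] (g : Qbar ≃ₐ[K] Qbar),
        (V.ρ ℓ g).det = ((D g : ℤ) : ℂ_[ℓ]) ∧
        (V.ρ ℓ g).charpoly.eval ((D g : ℤ) : ℂ_[ℓ]) = 0 := by
  have hodd : ∀ (ℓ : ℕ) [Fact ℓ.Prime] (g : Qbar ≃ₐ[K] Qbar),
      (V.ρ ℓ g).det * (V.ρ ℓ g).det = 1 ∧
      (V.ρ ℓ g).charpoly.eval (V.ρ ℓ g).det = 0 := by
    intro ℓ _ g
    obtain ⟨J, -, hJ, hinv⟩ := (V.real ℓ).orthogonal
    have h1 := la_odd (two_ne_zero : (2 : ℂ_[ℓ]) ≠ 0) hm J (V.ρ ℓ g) hJ (hinv g)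
    refine ⟨h1.1, ?_⟩
    rw [Matrix.eval_charpoly]
    exact h1.2
  have hcont : ∀ (ℓ : ℕ) [Fact ℓ.Prime], Continuous fun g : Qbar ≃ₐ[K] Qbar => (V.ρ ℓ g).det :=
    fun ℓ _ => Continuous.matrix_det ((V.real ℓ).continuous)
  have h2F : Fact (Nat.Prime 2) := ⟨Nat.prime_two⟩
  obtain ⟨D, hD⟩ := la_sign (two_ne_zero : (2 : ℂ_[2]) ≠ 0) (fun g => (V.ρ 2 g).det)
    (fun g g' => by rw [map_mul, Matrix.det_mul]) (fun g => (hodd 2 g).1)
  have hopen : ∀ (ℓ : ℕ) [Fact ℓ.Prime] (g : Qbar ≃ₐ[K] Qbar),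
      IsOpen {y : Qbar ≃ₐ[K] Qbar | (V.ρ ℓ y).det ≠ -(V.ρ ℓ g).det} :=
    fun ℓ _ g => isOpen_ne.preimage (hcont ℓ)
  have heq : ∀ (ℓ : ℕ) [Fact ℓ.Prime] (g y : Qbar ≃ₐ[K] Qbar),
      (V.ρ ℓ y).det ≠ -(V.ρ ℓ g).det → (V.ρ ℓ y).det = (V.ρ ℓ g).det := by
    intro ℓ _ g y h
    have h1 := (hodd ℓ y).1
    have h2 := (hodd ℓ g).1
    rw [← h2, mul_self_eq_mul_self_iff] at h1
    exact h1.resolve_right h
  have hself : ∀ (ℓ : ℕ) [Fact ℓ.Prime] (g : Qbar ≃ₐ[K] Qbar),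
      (V.ρ ℓ g).det ≠ -(V.ρ ℓ g).det := by
    intro ℓ _ g h
    have h1 : (2 : ℂ_[ℓ]) * (V.ρ ℓ g).det = 0 := by linear_combination h
    have h2 := (mul_eq_zero.mp h1).resolve_left two_ne_zero
    have h3 := (hodd ℓ g).1
    rw [h2, mul_zero] at h3
    exact zero_ne_one h3
  refine ⟨D, ?_, ?_⟩
  · have h1 : (D.ker : Set (Qbar ≃ₐ[K] Qbar)) =
        {y : Qbar ≃ₐ[K] Qbar | (V.ρ 2 y).det ≠ -(V.ρ 2 1).det} := by
      ext y
      rw [SetLike.mem_coe, MonoidHom.mem_ker, Set.mem_ofPred_eq, map_one, Matrix.det_one,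
        ← hD y]
      rcases Int.units_eq_one_or (D y) with h | h
      · rw [h]
        simp only [true_iff]
        intro h3
        have h4 : (2 : ℂ_[2]) = 0 := by
          have h5 : (1 : ℂ_[2]) = -1 := by simpa using h3
          linear_combination h5
        exact two_ne_zero h4
      · rw [h]
        simp
    rw [h1]
    exact hopen 2 1
  · intro ℓ _ g
    have h1 : (V.ρ ℓ g).det = ((D g : ℤ) : ℂ_[ℓ]) := by
      obtain ⟨y, ⟨hy1, hy2⟩, f, hf1, hf2⟩ := mn_dense V ℓ 2 g _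
        (Filter.inter_mem ((hopen ℓ g).mem_nhds (hself ℓ g))
          ((hopen 2 g).mem_nhds (hself 2 g)))
      have h3 := heq ℓ g y hy1
      have h4 := heq 2 g y hy2
      rw [Matrix.det_eq_sign_charpoly_coeff, Fintype.card_fin, hf1, Polynomial.coeff_map] at h3
      rw [Matrix.det_eq_sign_charpoly_coeff, Fintype.card_fin, hf2, Polynomial.coeff_map, ← hD g,
        fn_cast] at h4
      have h5 : (-1) ^ m * f.coeff 0 = ((D g : ℤ) : ℚ) := by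
        apply (algebraMap ℚ ℂ_[2]).injective
        rw [← h4, map_mul, map_pow, map_neg, map_one]
      rw [← h3, fn_cast, ← h5, map_mul, map_pow, map_neg, map_one]
    refine ⟨h1, ?_⟩
    rw [← h1]
    exact (hodd ℓ g).2

/-- **The final theorem.** -/
theorem fn_main (V : Realizations S j B B₀ m) (hm : Odd m)
    (ha : ∃ (p : ℕ) (_ : Fact p.Prime) (g : GalK K), unityRoots (V.ρ p g).charpoly = 1)
    (ℓ : ℕ) [hℓF : Fact ℓ.Prime]
    (hb : ∀ η : GalK K →* ℤˣ, IsQuadratic B₀ η →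
      (∃ (p : ℕ) (_ : Fact p.Prime) (g : GalK K), η g = -1 ∧
        ((V.ρ p g).charpoly.eval 1 ≠ 0 ∨ (V.ρ p g).charpoly.eval (-1) ≠ 0)) ∨
      ExcludedNode (V.ρ ℓ) S j η) :
    NoTateClasses (V.ρ ℓ) := by
  classical
  intro H hH W₁ W₂ hW hT
  by_contra hne
  have hgal : IsGalois K Qbar := ar_galois
  obtain ⟨N', hN'⟩ := ProfiniteGrp.exist_openNormalSubgroup_sub_open_nhds_of_one hH H.one_mem
  let N : Subgroup (Qbar ≃ₐ[K] Qbar) := N'.toSubgroup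
  have hNn : N.Normal := N'.isNormal'
  have hNo : IsOpen (N : Set (Qbar ≃ₐ[K] Qbar)) := N'.isOpen'
  obtain ⟨p₀, hp₀, g₀, hu⟩ := ha
  obtain ⟨h₁, hh₁, hder⟩ := fn_simple V p₀ g₀ hu ℓ N hNo
  have h2 : (2 : ℂ_[ℓ]) ≠ 0 := two_ne_zero
  have hTN : ∀ h ∈ N, ∀ x ∈ W₂, mrep (V.ρ ℓ) h x - x ∈ W₁ := fun h hh x hx =>
    hT h (hN' hh) x hx
  have hmult : (mrep (V.ρ ℓ) h₁).charpoly.rootMultiplicity 1 = 1 := by
    have hne0 := (LinearMap.charpoly_monic (mrep (V.ρ ℓ) h₁)).ne_zero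
    obtain ⟨x, hx0, hx⟩ := Pool.Agent.TB.eig_of_sub (mrep (V.ρ ℓ) h₁) 1 W₁ W₂ hW hne (by
      intro x hx
      rw [one_smul]
      exact hTN h₁ hh₁ x hx)
    rw [one_smul] at hx
    have hroot : (mrep (V.ρ ℓ) h₁).charpoly.IsRoot 1 := by
      rw [← Module.End.hasEigenvalue_iff_isRoot_charpoly]
      apply Module.End.hasEigenvalue_of_hasEigenvector (x := x)
      refine ⟨?_, hx0⟩
      rw [Module.End.mem_eigenspace_iff, one_smul]
      exact hx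
    have hpos := (Polynomial.rootMultiplicity_pos hne0).mpr hroot
    by_contra hcon
    have h3 : 1 < (mrep (V.ρ ℓ) h₁).charpoly.rootMultiplicity 1 := by omega
    have h4 := ((Polynomial.one_lt_rootMultiplicity_iff_isRoot (t := 1) hne0).mp h3).2
    rw [mrep_charpoly] at h4
    exact hder h4
  obtain ⟨J, hJs, hJ0, hJinv⟩ := (V.real ℓ).orthogonal
  obtain ⟨χ, e, M, heM, hMst, hχ, hχN⟩ := la_chi h2 (mrep (V.ρ ℓ))
    (fun x y => x ⬝ᵥ J.mulVec y)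
    (by intro x y z; simp only [Matrix.mulVec_add, dotProduct_add])
    (by intro x c y; simp only [Matrix.mulVec_smul, dotProduct_smul, smul_eq_mul])
    (by
      intro x y
      rw [Matrix.dotProduct_mulVec, dotProduct_comm, ← Matrix.mulVec_transpose, hJs])
    (by
      intro x hx
      have h1 : Matrix.vecMul x J = 0 := by
        apply dotProduct_eq_zero
        intro y
        rw [← Matrix.dotProduct_mulVec]
        exact hx y
      exact Matrix.eq_zero_of_vecMul_eq_zero hJ0 h1)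
    (by
      intro g x y
      simp only [mrep_apply]
      rw [← Matrix.vecMul_transpose, ← Matrix.dotProduct_mulVec, Matrix.mulVec_mulVec,
        Matrix.mulVec_mulVec, hJinv])
    N W₁ W₂ hW hne hTN h₁ hh₁ hmult
  have hχo : IsOpen (χ.ker : Set (Qbar ≃ₐ[K] Qbar)) := by
    apply Subgroup.isOpen_mono (H₁ := N) _ hNo
    intro h hh
    exact hχN h hh
  have heigℓ : ∀ g, (V.ρ ℓ g).charpoly.eval ((χ g : ℤ) : ℂ_[ℓ]) = 0 := by
    intro g
    obtain ⟨x, hx0, hx⟩ := la_eig (mrep (V.ρ ℓ)) χ e M heM hMst hχ g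
    rw [← mrep_charpoly]
    change (mrep (V.ρ ℓ) g).charpoly.IsRoot _
    rw [← Module.End.hasEigenvalue_iff_isRoot_charpoly]
    apply Module.End.hasEigenvalue_of_hasEigenvector (x := x)
    refine ⟨?_, hx0⟩
    rw [Module.End.mem_eigenspace_iff]
    exact hx
  have heig : ∀ (p : ℕ) [Fact p.Prime] (g : Qbar ≃ₐ[K] Qbar),
      (V.ρ p g).charpoly.eval ((χ g : ℤ) : ℂ_[p]) = 0 := fun p _ g => fn_eig V ℓ χ hχo heigℓ p g
  obtain ⟨D, hDo, hD⟩ := fn_det V hm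
  -- unipotent elements
  have huni : ∀ (p : ℕ) [Fact p.Prime] (τ : Qbar ≃ₐ[K] Qbar) (u : ℤˣ),
      (V.ρ p τ - 1) ^ m = 0 → (V.ρ p τ).charpoly.eval ((u : ℤ) : ℂ_[p]) = 0 → u = 1 := by
    intro p _ τ u h3 h4
    rcases Int.units_eq_one_or u with h5 | h5
    · exact h5
    · exfalso
      rw [h5, ← mrep_charpoly] at h4
      change (mrep (V.ρ p) τ).charpoly.IsRoot _ at h4
      rw [← Module.End.hasEigenvalue_iff_isRoot_charpoly] at h4
      obtain ⟨x, hx⟩ := h4.exists_hasEigenvector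
      have h6 : (V.ρ p τ).mulVec x = (-1 : ℂ_[p]) • x := by
        have h7 := hx.apply_eq_smul
        rw [mrep_apply] at h7
        rw [h7]
        simp
      have h7 : ∀ n : ℕ, ((V.ρ p τ - 1) ^ n).mulVec x = (-2 : ℂ_[p]) ^ n • x := by
        intro n
        induction n with
        | zero => rw [pow_zero, pow_zero, Matrix.one_mulVec, one_smul]
        | succ n ih =>
          rw [pow_succ', ← Matrix.mulVec_mulVec, ih, Matrix.mulVec_smul, Matrix.sub_mulVec,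
            Matrix.one_mulVec, h6, pow_succ]
          module
      have h8 := h7 m
      rw [h3, Matrix.zero_mulVec] at h8
      rcases smul_eq_zero.mp h8.symm with h9 | h9
      · exact two_ne_zero (neg_eq_zero.mp (eq_zero_of_pow_eq_zero h9))
      · exact hx.2 h9
  -- the product of the character and the determinant is unramified outside `B₀`
  have hηo : IsOpen ((χ * D).ker : Set (Qbar ≃ₐ[K] Qbar)) := by
    apply Subgroup.isOpen_mono (H₁ := χ.ker ⊓ D.ker) _ (hχo.inter hDo)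
    rintro g ⟨hg1, hg2⟩
    rw [MonoidHom.mem_ker, MonoidHom.mul_apply, MonoidHom.mem_ker.mp hg1,
      MonoidHom.mem_ker.mp hg2, one_mul]
  have hηB : ∀ 𝔔 : Ideal (𝓞 Qbar), 𝔔.IsMaximal → below K 𝔔 ∉ B₀ →
      ∀ τ : Qbar ≃ₐ[K] Qbar, Induces 𝔔 1 τ → (χ * D) τ = 1 := by
    intro 𝔔 h𝔔 h𝔔B τ hτ
    obtain ⟨r₁, hr₁, hr₁𝔔⟩ := ar_prime 𝔔 h𝔔
    obtain ⟨p, hp, hpr₁, -⟩ := fn_avoid r₁ r₁
    have hpF : Fact p.Prime := ⟨hp⟩
    have hp𝔔 : (p : 𝓞 Qbar) ∉ 𝔔 := fun h => hpr₁ (ar_unique 𝔔 h𝔔.ne_top hp hr₁ h hr₁𝔔)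
    have hτ1 := (V.real p).unipotent 𝔔 h𝔔 hp𝔔 h𝔔B τ hτ
    rw [MonoidHom.mul_apply, huni p τ _ hτ1 (heig p τ), huni p τ _ hτ1 (hD p τ).2, one_mul]
  rcases hb (χ * D) ⟨hηo, hηB⟩ with hgood | hbad
  · -- an element
    obtain ⟨p, hp, g, hηg, hg⟩ := hgood
    have h4 := heig p g
    have h5 := (hD p g).2
    have h6 : χ g * D g = -1 := hηg
    have h7 : (V.ρ p g).charpoly.eval 1 = 0 ∧ (V.ρ p g).charpoly.eval (-1) = 0 := by
      rcases Int.units_eq_one_or (χ g) with h8 | h8 <;>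
        rcases Int.units_eq_one_or (D g) with h9 | h9
      · rw [h8, h9] at h6
        exact absurd h6 (by decide)
      · rw [h8] at h4
        rw [h9] at h5
        exact ⟨by simpa using h4, by simpa using h5⟩
      · rw [h8] at h4
        rw [h9] at h5
        exact ⟨by simpa using h5, by simpa using h4⟩
      · rw [h8, h9] at h6
        exact absurd h6 (by decide)
    rcases hg with h8 | h8
    · exact h8 h7.1
    · exact h8 h7.2
  -- a node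
  obtain ⟨𝔓, P, h𝔓, hnode, hηI, hP, φ, hφ, hηφ⟩ := hbad
  have hηunit : ∀ u v : ℤˣ, u * v = 1 → u = v := by
    intro u v h
    have h3 : v * v = 1 := Int.units_mul_self v
    exact mul_right_cancel (h.trans h3.symm)
  obtain ⟨⟨s, hs1, hsrank, hsdet, hsI⟩, htr⟩ := hnode
  have hsχ : χ s = -1 := by
    have h3 := (hD ℓ s).1
    rw [hsdet] at h3
    rw [hηunit (χ s) (D s) (hηI s hs1)]
    rcases Int.units_eq_one_or (D s) with h4 | h4
    · exfalso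
      rw [h4] at h3
      have h5 : (-1 : ℂ_[ℓ]) = 1 := by simpa using h3
      have h6 : (2 : ℂ_[ℓ]) = 0 := by linear_combination -h5
      exact two_ne_zero h6
    · exact h4
  have hrange : Module.finrank ℂ_[ℓ] (LinearMap.range (V.ρ ℓ s - 1).mulVecLin) = 1 := hsrank
  obtain ⟨⟨δ, hδr⟩, hδ0, hδ⟩ := finrank_eq_one_iff'.mp hrange
  have hδne : δ ≠ 0 := fun h => hδ0 (Subtype.ext h)
  have hsub : ∀ y, mrep (V.ρ ℓ) s y - y = (V.ρ ℓ s - 1).mulVecLin y := by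
    intro y
    rw [Matrix.mulVecLin_apply, Matrix.sub_mulVec, Matrix.one_mulVec, mrep_apply]
  have hR : ∀ y, ∃ a : ℂ_[ℓ], mrep (V.ρ ℓ) s y - y = a • δ := by
    intro y
    obtain ⟨c, hc⟩ := hδ ⟨(V.ρ ℓ s - 1).mulVecLin y, y, rfl⟩
    refine ⟨c, ?_⟩
    rw [hsub]
    exact (congrArg Subtype.val hc).symm
  have hRδ : mrep (V.ρ ℓ) s δ ≠ δ := by
    have h3 := la_node h2 (mrep (V.ρ ℓ)) χ e M heM hMst hχ s s δ hR hsχ rfl
    rw [h3, hsχ]
    intro h4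
    apply hδne
    have h5 : (2 : ℂ_[ℓ]) • δ = 0 := by
      have h6 : (-1 : ℂ_[ℓ]) • δ = δ := by simpa using h4
      rw [two_smul]
      nth_rewrite 1 [← h6]
      module
    exact (smul_eq_zero.mp h5).resolve_left h2
  have hρs : V.ρ ℓ s ≠ 1 := by
    intro h
    rw [h, sub_self, Matrix.rank_zero] at hsrank
    exact zero_ne_one hsrank
  have hconj : Induces 𝔓 1 (φ * s * φ⁻¹) := by
    intro x y hxy
    have hint : ∀ (g : Qbar ≃ₐ[K] Qbar) (z : 𝓞 Qbar), IsIntegral ℤ (g (z : Qbar)) := by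
      intro g z
      have h3 : IsIntegral ℤ (z : Qbar) := z.2
      exact h3.map ((g : Qbar →ₐ[K] Qbar) : Qbar →+* Qbar).toIntAlgHom
    let z : 𝓞 Qbar := ⟨φ⁻¹ (x : Qbar), hint φ⁻¹ x⟩
    let w : 𝓞 Qbar := ⟨s (z : Qbar), hint s z⟩
    have h3 : x - z ^ Nat.card (𝓞 K ⧸ below K 𝔓) ∈ 𝔓 := by
      apply hφ
      change (x : Qbar) = φ (φ⁻¹ (x : Qbar))
      change (x : Qbar) = (φ * φ⁻¹) (x : Qbar)
      rw [mul_inv_cancel]
      rfl
    have h4 : y - w ^ Nat.card (𝓞 K ⧸ below K 𝔓) ∈ 𝔓 := by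
      apply hφ
      rw [hxy]
      rfl
    have h5 : w - z ^ 1 ∈ 𝔓 := hs1 z w rfl
    rw [pow_one] at h5
    have h6 : w ^ Nat.card (𝓞 K ⧸ below K 𝔓) - z ^ Nat.card (𝓞 K ⧸ below K 𝔓) ∈ 𝔓 := by
      obtain ⟨c, hc⟩ := sub_dvd_pow_sub_pow w z (Nat.card (𝓞 K ⧸ below K 𝔓))
      rw [hc]
      exact 𝔓.mul_mem_right _ h5
    have h7 := 𝔓.sub_mem (𝔓.add_mem h4 h6) h3
    have h8 : y - w ^ Nat.card (𝓞 K ⧸ below K 𝔓) + (w ^ Nat.card (𝓞 K ⧸ below K 𝔓) -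
        z ^ Nat.card (𝓞 K ⧸ below K 𝔓)) - (x - z ^ Nat.card (𝓞 K ⧸ below K 𝔓)) =
        y - x ^ 1 := by ring
    rwa [h8] at h7
  have hcomm : V.ρ ℓ φ * V.ρ ℓ s = V.ρ ℓ s * V.ρ ℓ φ := by
    have h3 : V.ρ ℓ φ * V.ρ ℓ s = V.ρ ℓ (φ * s * φ⁻¹) * V.ρ ℓ φ := by
      rw [← map_mul, ← map_mul, inv_mul_cancel_right]
    rcases hsI _ hconj with h4 | h4
    · exfalso
      rw [h4, one_mul] at h3
      apply hρs
      have h5 : V.ρ ℓ s = V.ρ ℓ φ⁻¹ * (V.ρ ℓ φ * V.ρ ℓ s) := by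
        rw [← mul_assoc, ← map_mul, inv_mul_cancel, map_one, one_mul]
      rw [h5, h3, ← map_mul, inv_mul_cancel, map_one]
    · rw [h3, h4]
  have hcomm' : mrep (V.ρ ℓ) φ⁻¹ * mrep (V.ρ ℓ) s = mrep (V.ρ ℓ) s * mrep (V.ρ ℓ) φ⁻¹ := by
    have h3 : V.ρ ℓ φ⁻¹ * V.ρ ℓ s = V.ρ ℓ s * V.ρ ℓ φ⁻¹ := by
      calc V.ρ ℓ φ⁻¹ * V.ρ ℓ s = V.ρ ℓ φ⁻¹ * (V.ρ ℓ s * V.ρ ℓ φ) * V.ρ ℓ φ⁻¹ := by
            rw [mul_assoc, mul_assoc, ← map_mul (V.ρ ℓ) φ φ⁻¹, mul_inv_cancel, map_one, mul_one]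
        _ = V.ρ ℓ φ⁻¹ * (V.ρ ℓ φ * V.ρ ℓ s) * V.ρ ℓ φ⁻¹ := by rw [hcomm]
        _ = V.ρ ℓ s * V.ρ ℓ φ⁻¹ := by
            rw [← mul_assoc, ← map_mul (V.ρ ℓ) φ⁻¹ φ, inv_mul_cancel, map_one, one_mul]
    apply LinearMap.ext
    intro x
    change (V.ρ ℓ φ⁻¹).mulVec ((V.ρ ℓ s).mulVec x) = (V.ρ ℓ s).mulVec ((V.ρ ℓ φ⁻¹).mulVec x)
    rw [Matrix.mulVec_mulVec, Matrix.mulVec_mulVec, h3]
  have hκ := la_node h2 (mrep (V.ρ ℓ)) χ e M heM hMst hχ s φ⁻¹ δ hR hsχ hcomm'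
  -- the invariants
  obtain ⟨hmaxK, hfinK⟩ := ar_finite (K := K) 𝔓 h𝔓
  obtain ⟨t, ht⟩ := mn_res S j 𝔓 h𝔓
  have hWs : ∀ x, x ∈ inertiaInvariants (V.ρ ℓ) 𝔓 ↔ mrep (V.ρ ℓ) s x = x := by
    intro x
    constructor
    · intro hx
      exact hx s hs1
    · intro hx τ hτ
      rcases hsI τ hτ with h3 | h3
      · rw [h3, Matrix.one_mulVec]
      · rw [h3]
        exact hx
  have hfex : ∃ f : Module.End ℂ_[ℓ] (inertiaInvariants (V.ρ ℓ) 𝔓),
      ∀ v, (f v : Fin m → ℂ_[ℓ]) = (V.ρ ℓ φ⁻¹).mulVec v := by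
    let _ := Ideal.Quotient.field (below K 𝔓)
    let _ : Fintype (𝓞 K ⧸ below K 𝔓) := Fintype.ofFinite _
    obtain ⟨f, hf, -⟩ := htr (𝓞 K ⧸ below K 𝔓) (Ideal.Quotient.mk (below K 𝔓))
      (Ideal.mk_ker) φ (by
      rw [← Nat.card_eq_fintype_card]
      exact hφ)
    exact ⟨f, hf⟩
  obtain ⟨f, hf⟩ := hfex
  have hfpow : ∀ (r : ℕ) (v), ((f ^ r) v : Fin m → ℂ_[ℓ]) = (V.ρ ℓ φ⁻¹ ^ r).mulVec v := by
    intro r
    induction r with
    | zero =>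
      intro v
      rw [pow_zero, pow_zero, Matrix.one_mulVec]
      rfl
    | succ r ih =>
      intro v
      rw [pow_succ', pow_succ', Module.End.mul_apply, hf, ih, Matrix.mulVec_mulVec]
  have hftr : ∀ r, 1 ≤ r → LinearMap.trace ℂ_[ℓ] _ (f ^ r) = algebraMap ℚ ℂ_[ℓ] (t r) := by
    intro r hr
    obtain ⟨F, _, _, ψ, hψ, hcard, htrr⟩ := ht r hr
    obtain ⟨g, hg, hg2⟩ := htr F ψ hψ (φ ^ r) (by
      rw [hcard]
      exact ar_pow hφ r)
    have h3 : g = f ^ r := by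
      apply LinearMap.ext
      intro v
      apply Subtype.ext
      rw [hg, hfpow, ← inv_pow, map_pow]
    have h4 : (Fintype.card F : ℂ_[ℓ]) ^ j ≠ 0 := by
      apply pow_ne_zero
      exact_mod_cast Fintype.card_ne_zero
    rw [← h3, hg2, div_eq_iff h4, mul_comm]
    have h5 := congrArg (algebraMap ℚ ℂ_[ℓ]) htrr
    rw [map_mul, map_pow, map_natCast, map_intCast] at h5
    exact h5.symm
  have hfin : Module.finrank ℂ_[ℓ] (inertiaInvariants (V.ρ ℓ) 𝔓) = m - 1 := by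
    have h3 : inertiaInvariants (V.ρ ℓ) 𝔓 = LinearMap.ker (V.ρ ℓ s - 1).mulVecLin := by
      ext x
      rw [hWs, LinearMap.mem_ker, ← hsub, sub_eq_zero]
    have h4 := LinearMap.finrank_range_add_finrank_ker (V.ρ ℓ s - 1).mulVecLin
    rw [hrange, ← h3, Module.finrank_fin_fun] at h4
    omega
  have hfpoly : f.charpoly = P.map (algebraMap ℚ ℂ_[ℓ]) := by
    obtain ⟨f', hf1, hf2⟩ := nw_poly (algebraMap ℚ ℂ_[ℓ]) (algebraMap ℚ ℂ) (m - 1) f.charpoly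
      (P.map (algebraMap ℚ ℂ)) (LinearMap.charpoly_monic f) (hP.1.map _)
      (by rw [LinearMap.charpoly_natDegree, hfin])
      (by rw [Polynomial.natDegree_map]; exact hP.2.1) t (by
      intro r hr _
      rw [← Pool.Agent.TU.tu_trace]
      exact hftr r hr) (fun r hr hrd => mn_sums _ hP ht r hr hrd)
    have h1 : P = f' := Polynomial.map_injective _ (algebraMap ℚ ℂ).injective hf2
    rw [hf1, h1]
  have hfdet : LinearMap.det f = algebraMap ℚ ℂ_[ℓ] (P.eval 0) := by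
    rw [LinearMap.det_eq_sign_charpoly_coeff, hfin, hfpoly, Polynomial.coeff_map,
      Polynomial.coeff_zero_eq_eval_zero]
    have h3 : Even (m - 1) := by
      obtain ⟨c, hc⟩ := hm
      exact ⟨c, by omega⟩
    rw [h3.neg_one_pow, one_mul]
  have hdet := la_det (mrep (V.ρ ℓ) s) (mrep (V.ρ ℓ) φ⁻¹) δ hRδ hR
    (inertiaInvariants (V.ρ ℓ) 𝔓) hWs f hf _ hκ
  have hP0 : P.eval 0 = -(((χ * D) φ : ℤ) : ℚ) := by rw [hηφ, neg_neg]
  have hinv : (χ * D) φ = χ φ⁻¹ * D φ⁻¹ := by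
    rw [← MonoidHom.mul_apply, map_inv, Int.units_inv_eq_self]
  rw [mrep_det, (hD ℓ φ⁻¹).1, hfdet, hP0, hinv, map_neg, ← fn_cast] at hdet
  rcases Int.units_eq_one_or (χ φ⁻¹) with h3 | h3 <;>
    rcases Int.units_eq_one_or (D φ⁻¹) with h4 | h4 <;> rw [h3, h4] at hdet
  · have h5 : (1 : ℂ_[ℓ]) = -1 := by simpa using hdet
    exact h2 (by linear_combination h5)
  · have h5 : (-1 : ℂ_[ℓ]) = 1 := by simpa using hdet
    exact h2 (by linear_combination -h5)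
  · have h5 : (1 : ℂ_[ℓ]) = -1 := by simpa using hdet
    exact h2 (by linear_combination h5)
  · have h5 : (-1 : ℂ_[ℓ]) = 1 := by simpa using hdet
    exact h2 (by linear_combination -h5)

end

end Pool.Agent.OS2
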